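import Pool.Agent.MP_3ce0a0_al.H79.Y3B

/-
Shape A, the degenerate case: it does not occur in dimension at most six.
-/

namespace Pool.Agent.MP_3ce0a0_al.H79.Y

open Equiv Module Pool.Agent.MP_3ce0a0_al.H79.X

namespace H1

variable {H : Type} [AddCommGroup H] [Module ℂ H] {N : NS (Fin 3) (GH H)} {e : Fin 3 → H} {σ : ℂ}

lemma inv_ap {a b : Fin 3} (h : a ≠ b) (v : H) : (N.ρ a b)⁻¹ v = N.ε b (N.ρ a b (N.ε b v)) := by
  rw [ρ_inv N h]; rfl

lemma rr {a b : Fin 3} (h : a ≠ b) (v : H) : N.ρ a b (N.ε b (N.ρ a b (N.ε b v))) = v := by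
  rw [← inv_ap h, ginv]

lemma lam_ap {a b : Fin 3} (h : a ≠ b) (v : H) :
    N.lam a b v = DD N.toWS (N.ρ a b (DD N.toWS v)) := by
  rw [lam_eq N h]; rfl

lemma e_neg (hA : DA N.toWS e σ) (a : Fin 3) : N.ε a (e a) = -e a :=
  Se_neg (hA.2.1 a).2 (by simp)

lemma e_pos (hA : DA N.toWS e σ) {a b : Fin 3} (h : a ≠ b) : N.ε a (e b) = e b :=
  Se_pos (hA.2.1 b).2 (by simpa using h)

lemma z_pos {u : H} (hu : u ∈ Se N.toWS ∅) (a : Fin 3) : N.ε a u = u := Se_pos hu (by simp)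

lemma t_neg {u : H} (hu : u ∈ Se N.toWS Finset.univ) (a : Fin 3) : N.ε a u = -u :=
  Se_neg hu (by simp)

lemma e_D (hA : DA N.toWS e σ) (a : Fin 3) : DD N.toWS (e a) = -e a := DD_one (hA.2.1 a).2

lemma ex_x (hA : DA N.toWS e σ) (hZ : Z0 N e) {a b : Fin 3} (h : a ≠ b) :
    ∃ x : ℂ, x * x = 1 ∧ N.ρ a b (e a) = x • e a := by
  obtain ⟨x, hx⟩ := Submodule.mem_span_singleton.1 (hZ a b h).1
  refine ⟨x, ?_, hx.symm⟩
  have k := rr (N := N) h (e a)
  rw [e_pos hA h.symm, ← hx, map_smul, e_pos hA h.symm, map_smul, ← hx, smul_smul] at k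
  have k' : (x * x - 1) • e a = 0 := by rw [sub_smul, k, one_smul, sub_self]
  exact sub_eq_zero.1 ((smul_eq_zero.1 k').resolve_right (hA.2.1 a).1)

lemma ex_mu (hZ : Z0 N e) {a b : Fin 3} (h : a ≠ b) {v : H}
    (hv : v ∈ Se N.toWS ∅ ⊔ ℂ ∙ e b) : ∃ μ : ℂ, ∃ u ∈ Se N.toWS ∅, N.ρ a b v = μ • e b + u := by
  obtain ⟨u, hu, w, hw, k⟩ := Submodule.mem_sup.1 ((hZ a b h).2 v hv)
  obtain ⟨μ, rfl⟩ := Submodule.mem_span_singleton.1 hw
  exact ⟨μ, u, hu, by rw [← k, add_comm]⟩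

lemma ex_mu0 (hZ : Z0 N e) {a b : Fin 3} (h : a ≠ b) {v : H} (hv : v ∈ Se N.toWS ∅) :
    ∃ μ : ℂ, ∃ u ∈ Se N.toWS ∅, N.ρ a b v = μ • e b + u :=
  ex_mu hZ h (Submodule.mem_sup_left hv)

lemma ex_w (hZ : Z0 N e) {a b : Fin 3} (h : a ≠ b) :
    ∃ μ : ℂ, ∃ u ∈ Se N.toWS ∅, N.ρ a b (e b) = μ • e b + u :=
  ex_mu hZ h (Submodule.mem_sup_right (Submodule.mem_span_singleton_self _))

lemma ex_nu (hA : DA N.toWS e σ) {a b c : Fin 3} (d : D3 a b c) {v : H} (hv : N.ε c v = -v) :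
    ∃ z : ℂ, ∃ g ∈ Se N.toWS Finset.univ, N.ρ a b v = z • e c + g := by
  refine hA.neg ?_
  have k := gap (N.ε_other a b c d.1 d.2.1 d.2.2).eq v
  rw [gmul, gmul, hv, map_neg] at k
  exact k

lemma ger {a b : Fin 3} (h : a ≠ b) (v : H) :
    (N.ρ b a)⁻¹ (N.lam a b v) = (N.ρ a b)⁻¹ (N.π (swap a b) (N.ε b v)) := by
  have k := gap (N.gersten a b h) v
  simp only [gmul] at k
  rw [← k, ginv']

/-- the image of `e b` under `ρ a b` lies in the even sector. -/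
lemma p_mem (hA : DA N.toWS e σ) (hZ : Z0 N e) {a b : Fin 3} (h : a ≠ b) :
    N.ρ a b (e b) ∈ Se N.toWS ∅ ∧ ∃ t : ℂ, N.ρ b a (e a) = t • N.ρ a b (e b) := by
  have main : ∀ {a b : Fin 3}, a ≠ b → ∀ {x w w' : ℂ} {u u' : H}, N.ρ a b (e a) = x • e a →
      u ∈ Se N.toWS ∅ → u' ∈ Se N.toWS ∅ → N.ρ a b (e b) = w • e b + u →
      N.ρ b a (e a) = w' • e a + u' → w = 0 ∧ x • u' = σ • u := by
    intro a b h x w w' u u' hx hu hu' hw hw'
    obtain ⟨c, d⟩ := D3.ex h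
    have k := ger (N := N) h (e a)
    rw [lam_ap h, e_D hA, map_neg, hx, map_neg, map_smul, e_D hA, e_pos hA h.symm, hA.2.2.1,
      sg_swap σ h, swap_apply_left, inv_ap h, inv_ap h.symm] at k
    simp only [map_neg, map_smul, smul_neg, neg_neg, e_neg hA, hw, hw', map_add, z_pos hu,
      z_pos hu'] at k
    have q := hA.uniq d (x := x * w') (y := -(σ * w)) (z := 0) (u := σ • u - x • u') (g := 0)
      (Submodule.sub_mem _ (Submodule.smul_mem _ _ hu) (Submodule.smul_mem _ _ hu'))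
      (Submodule.zero_mem _) (by linear_combination (norm := module) k)
    have hσ : σ ≠ 0 := left_ne_zero_of_mul_eq_one hA.sq
    exact ⟨by simpa [hσ] using q.2.1, (sub_eq_zero.1 q.2.2.2.1).symm⟩
  obtain ⟨x, hx2, hx⟩ := ex_x hA hZ h
  obtain ⟨x', -, hx'⟩ := ex_x hA hZ h.symm
  obtain ⟨w, u, hu, hw⟩ := ex_w hZ h
  obtain ⟨w', u', hu', hw'⟩ := ex_w hZ h.symm
  obtain ⟨rfl, k⟩ := main h hx hu hu' hw hw'
  obtain ⟨rfl, -⟩ := main h.symm hx' hu' hu hw' hw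
  rw [zero_smul, zero_add] at hw hw'
  refine ⟨hw ▸ hu, x * σ, ?_⟩
  rw [hw, hw', mul_smul, ← k, smul_smul, hx2, one_smul]

lemma p_sq (hA : DA N.toWS e σ) (hZ : Z0 N e) {a b : Fin 3} (h : a ≠ b) :
    N.ρ a b (N.ρ a b (e b)) = -e b := by
  have k := rr (N := N) h (e b)
  rw [e_neg hA, map_neg, map_neg, z_pos (p_mem hA hZ h).1, map_neg] at k
  exact neg_eq_iff_eq_neg.1 k

lemma keep_sq {a b : Fin 3} (h : a ≠ b) {v : H} (hv : v ∈ Se N.toWS ∅)
    (hr : N.ρ a b v ∈ Se N.toWS ∅) : N.ρ a b (N.ρ a b v) = v := by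
  have k := rr (N := N) h v
  rwa [z_pos hv, z_pos hr] at k

lemma π_zero (p : Perm (Fin 3)) {v : H} (hv : v ∈ Se N.toWS ∅) : N.π p v ∈ Se N.toWS ∅ := by
  simpa using π_Se p hv

lemma π_univ (p : Perm (Fin 3)) {v : H} (hv : v ∈ Se N.toWS Finset.univ) :
    N.π p v ∈ Se N.toWS Finset.univ := by
  simpa using π_Se p hv

lemma keep_symm (hA : DA N.toWS e σ) (hZ : Z0 N e) {a b : Fin 3} (h : a ≠ b) {v : H}
    (hv : v ∈ Se N.toWS ∅) (hr : N.ρ a b v ∈ Se N.toWS ∅) : N.ρ b a v ∈ Se N.toWS ∅ := by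
  obtain ⟨c, d⟩ := D3.ex h
  have k := ger (N := N) h (N.ρ a b v)
  have hs := π_zero (swap a b) hr
  obtain ⟨μ, u, hu, k1⟩ := ex_mu0 hZ h hs
  obtain ⟨μ', u', hu', k2⟩ := ex_mu0 hZ h.symm hv
  rw [lam_ap h, DD_zero hr, keep_sq h hv hr, DD_zero hv, z_pos hr, inv_ap h, inv_ap h.symm,
    z_pos hv, z_pos hs, k1, k2] at k
  simp only [map_add, map_smul, e_neg hA, z_pos hu, z_pos hu'] at k
  have q := hA.uniq d (x := -μ') (y := μ) (z := 0) (u := u' - u) (g := 0)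
    (Submodule.sub_mem _ hu' hu) (Submodule.zero_mem _) (by linear_combination (norm := module) k)
  rw [k2, neg_eq_zero.1 q.1, zero_smul, zero_add]
  exact hu'

/-- the commutator of `ρ a b` and `lam a c` on `e b`. -/
lemma eig (hA : DA N.toWS e σ) (hZ : Z0 N e) {a b c : Fin 3} (d : D3 a b c) {z : ℂ} {g : H}
    (hg : g ∈ Se N.toWS Finset.univ) (hz : N.ρ a c (e b) = z • e b + g)
    (hr : N.ρ a c (N.ρ a b (e b)) ∈ Se N.toWS ∅) :
    N.ρ a c (N.ρ a b (e b)) = z • N.ρ a b (e b) := by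
  have hp := (p_mem hA hZ d.1).1
  have k := gap (ρ_lam_same N d.1 d.2.1.symm).eq (e b)
  obtain ⟨ν, g', hg', k1⟩ := ex_nu hA d (t_neg hg c)
  rw [gmul, gmul, lam_ap d.2.1.symm, lam_ap d.2.1.symm, e_D hA, DD_zero hp, DD_zero hr,
    map_neg, hz] at k
  simp only [map_neg, map_add, map_smul, e_D hA, DD_univ hg, k1] at k
  have q := hA.uniq d (x := 0) (y := 0) (z := ν)
    (u := z • N.ρ a b (e b) - N.ρ a c (N.ρ a b (e b))) (g := g')
    (Submodule.sub_mem _ (Submodule.smul_mem _ _ hp) hr) hg'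
    (by linear_combination (norm := module) k)
  exact (sub_eq_zero.1 q.2.2.2.1).symm

/-- the Steinberg relation on `e b`. -/
lemma st_b (hA : DA N.toWS e σ) (hZ : Z0 N e) {a b c : Fin 3} (d : D3 a b c) {z : ℂ} {g : H}
    (hg : g ∈ Se N.toWS Finset.univ) (hz : N.ρ c a (e b) = z • e b + g) :
    (z ≠ 0 → N.ρ a b (N.ρ c b (e b)) ∈ Se N.toWS ∅) ∧ N.ρ a b g ∈ Se N.toWS Finset.univ := by
  have hp := (p_mem hA hZ d.1).1
  have hp' := (p_mem hA hZ d.2.2).1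
  have k := gap (stein N d) (e b)
  obtain ⟨ν, g', hg', k1⟩ := ex_nu hA d (t_neg hg c)
  obtain ⟨μ, u, hu, k2⟩ := ex_mu0 hZ d.1 hp'
  obtain ⟨μ', u', hu', k3⟩ := ex_mu0 hZ d.2.1 hu
  simp only [gmul, hz, k2, map_add, map_smul, k1, k3] at k
  have q := hA.uniq d (x := -μ') (y := -(μ * z)) (z := ν)
    (u := z • N.ρ a b (e b) - u') (g := g' - μ • g)
    (Submodule.sub_mem _ (Submodule.smul_mem _ _ hp) hu')
    (Submodule.sub_mem _ hg' (Submodule.smul_mem _ _ hg))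
    (by linear_combination (norm := module) k)
  refine ⟨fun h0 => ?_, ?_⟩
  · have : μ = 0 := by simpa [h0] using q.2.1
    rw [k2, this, zero_smul, zero_add]
    exact hu
  · rw [k1, q.2.2.1, zero_smul, zero_add]
    exact hg'

lemma unif (hA : DA N.toWS e σ) {a b c a' b' c' : Fin 3} (d : D3 a b c) (d' : D3 a' b' c')
    (h : N.ρ a b (e c) ∈ Se N.toWS Finset.univ) : N.ρ a' b' (e c') ∈ Se N.toWS Finset.univ := by
  obtain ⟨p, rfl, rfl, rfl⟩ := d.trans d'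
  have k := gap (N.π_ρ p a b d.1) (e c)
  rw [gmul, gmul, hA.2.2.1, map_smul] at k
  have k2 := Submodule.smul_mem _ (sg σ p) (π_univ p h)
  rwa [k, smul_smul, sg_sq hA.sq, one_smul] at k2

/-- a line coefficient vanishes. -/
lemma coef0 (hA : DA N.toWS e σ) {b : Fin 3} {α : ℂ} {u : H} (hu : u ∈ Se N.toWS ∅)
    (k : α • e b = u) : α = 0 := by
  obtain ⟨a, c, d⟩ := D3.ex' b
  exact (hA.uniq d (x := 0) (y := 0) (z := α) (u := -u) (g := 0) (Submodule.neg_mem _ hu)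
    (Submodule.zero_mem _) (by linear_combination (norm := module) k)).2.2.1

lemma coef3 (hA : DA N.toWS e σ) {b : Fin 3} {α : ℂ} {u : H} (hu : u ∈ Se N.toWS Finset.univ)
    (k : α • e b = u) : α = 0 := by
  obtain ⟨a, c, d⟩ := D3.ex' b
  exact (hA.uniq d (x := 0) (y := 0) (z := α) (u := 0) (g := -u) (Submodule.zero_mem _)
    (Submodule.neg_mem _ hu) (by linear_combination (norm := module) k)).2.2.1

lemma case_ne [FiniteDimensional ℂ H] (h6 : finrank ℂ H ≤ 6) (hA : DA N.toWS e σ) (hZ : Z0 N e)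
    (hz : ∀ a b c, D3 a b c → N.ρ a b (e c) ∉ Se N.toWS Finset.univ) : False := by
  have hz' : ∀ a b c, D3 a b c → ∃ z : ℂ, z ≠ 0 ∧ ∃ g ∈ Se N.toWS Finset.univ,
      N.ρ a b (e c) = z • e c + g := fun a b c d => by
    obtain ⟨z, g, hg, k⟩ := ex_nu hA d (e_neg hA c)
    refine ⟨z, ?_, g, hg, k⟩
    rintro rfl
    rw [zero_smul, zero_add] at k
    exact hz a b c d (k ▸ hg)
  have k1 : ∀ a b c, D3 a b c → N.ρ a b (N.ρ c b (e b)) ∈ Se N.toWS ∅ := fun a b c d => by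
    obtain ⟨z, h0, g, hg, k⟩ := hz' c a b d.perm.2.2.2.2
    exact (st_b hA hZ d hg k).1 h0
  have k2 : ∀ a b c, D3 a b c → N.ρ a b (N.ρ c a (e a)) ∈ Se N.toWS ∅ := fun a b c d =>
    keep_symm hA hZ d.1.symm (p_mem hA hZ d.2.1).1 (k1 b a c d.perm.1)
  have k3 : ∀ a b c, D3 a b c → N.ρ a b (N.ρ a c (e c)) ∈ Se N.toWS ∅ := fun a b c d => by
    obtain ⟨t, ht⟩ := (p_mem hA hZ d.2.1).2
    rw [ht, map_smul]
    exact Submodule.smul_mem _ _ (k2 a b c d)
  have k4 : ∀ a b c, D3 a b c → N.ρ c b (N.ρ a c (e c)) ∈ Se N.toWS ∅ := fun a b c d =>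
    k2 c b a d.perm.2.2.1
  obtain ⟨a, b, d⟩ := D3.ex' 0
  generalize (0 : Fin 3) = c at d
  have pab := (p_mem hA hZ d.1).1
  have pcb := (p_mem hA hZ d.2.2).1
  have pac := (p_mem hA hZ d.2.1.symm).1
  have hv := k1 a b c d
  have hv' := k1 c b a d.perm.2.2.1
  have cm : N.ρ a b (N.ρ c b (e b)) = N.ρ c b (N.ρ a b (e b)) := gap (ρ_ρ_col N d).eq (e b)
  obtain ⟨t, ht, i, hi⟩ := seven h6 ![e a, e b, e c, N.ρ a b (e b), N.ρ c b (e b),
    N.ρ a c (e c), N.ρ a b (N.ρ c b (e b))]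
  rw [Fin.sum_univ_seven] at ht
  simp only [Matrix.cons_val] at ht
  have q := hA.uniq d (x := t 0) (y := t 1) (z := t 2) (u := t 3 • N.ρ a b (e b) +
    t 4 • N.ρ c b (e b) + t 5 • N.ρ a c (e c) + t 6 • N.ρ a b (N.ρ c b (e b))) (g := 0)
    (Submodule.add_mem _ (Submodule.add_mem _ (Submodule.add_mem _ (Submodule.smul_mem _ _ pab)
      (Submodule.smul_mem _ _ pcb)) (Submodule.smul_mem _ _ pac)) (Submodule.smul_mem _ _ hv))
    (Submodule.zero_mem _) (by linear_combination (norm := module) ht)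
  obtain ⟨q0, q1, q2, q, -⟩ := q
  have q3 : t 3 = 0 := by
    have r := congrArg (N.ρ a b) q
    simp only [map_add, map_smul, map_zero, p_sq hA hZ d.1, keep_sq d.1 pcb hv] at r
    exact coef0 hA (b := b) (Submodule.add_mem _ (Submodule.add_mem _
      (Submodule.smul_mem _ (t 4) hv) (Submodule.smul_mem _ (t 5) (k3 a b c d)))
      (Submodule.smul_mem _ (t 6) pcb)) (by linear_combination (norm := module) -r)
  have q4 : t 4 = 0 := by
    have r := congrArg (N.ρ c b) q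
    simp only [cm, map_add, map_smul, map_zero, p_sq hA hZ d.2.2, keep_sq d.2.2 pab hv'] at r
    exact coef0 hA (b := b) (Submodule.add_mem _ (Submodule.add_mem _
      (Submodule.smul_mem _ (t 3) hv') (Submodule.smul_mem _ (t 5) (k4 a b c d)))
      (Submodule.smul_mem _ (t 6) pab)) (by linear_combination (norm := module) -r)
  obtain ⟨z, h0, g, hg, kz⟩ := hz' a b c d
  have ez := eig hA hZ d.perm.2.1 hg kz (k3 a b c d)
  have r : t 5 • N.ρ a c (e c) + (z * t 6) • N.ρ c b (e b) = 0 := by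
    apply (N.ρ a b).injective
    rw [q3, q4] at q
    simp only [map_add, map_smul, map_zero, ez]
    linear_combination (norm := module) z • q
  have q6 : t 6 = 0 := by
    have r' := congrArg (N.ρ c b) r
    simp only [map_add, map_smul, map_zero, p_sq hA hZ d.2.2] at r'
    have := coef0 hA (b := b) (α := z * t 6) (Submodule.smul_mem _ (t 5) (k4 a b c d))
      (by linear_combination (norm := module) -r')
    simpa [h0] using this
  have q5 : t 5 = 0 := by simpa [q6, (hA.2.1 c).1] using r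
  apply hi
  fin_cases i <;> assumption

lemma case_eq [FiniteDimensional ℂ H] (h6 : finrank ℂ H ≤ 6) (hA : DA N.toWS e σ) (hZ : Z0 N e)
    (hz : ∀ a b c, D3 a b c → N.ρ a b (e c) ∈ Se N.toWS Finset.univ) : False := by
  have k1 : ∀ a b c, D3 a b c → N.ρ a b (N.ρ a b (e c)) = -e c := fun a b c d => by
    have k := rr (N := N) d.1 (e c)
    rw [e_pos hA d.2.2.symm, t_neg (hz a b c d), map_neg] at k
    exact neg_eq_iff_eq_neg.1 k
  have k2 : ∀ a b c, D3 a b c → N.ρ a b (N.ρ c a (e b)) ∈ Se N.toWS Finset.univ :=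
    fun a b c d => (st_b hA hZ d (z := 0) (hz c a b d.perm.2.2.2.2) (by simp)).2
  have k3 : ∀ a b c, D3 a b c → N.ρ c a (N.ρ a b (e c)) ∈ Se N.toWS Finset.univ :=
    fun a b c d => by
    obtain ⟨x, -, hx⟩ := ex_x hA hZ d.2.1
    obtain ⟨y, hy2, hy⟩ := ex_x hA hZ d.2.2
    have k := gap (stein N d) (e c)
    simp only [gmul, hx, hy, map_smul] at k
    have k' := Submodule.smul_mem _ y (Submodule.smul_mem _ x (hz a b c d))
    rwa [k, smul_smul, hy2, one_smul] at k'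
  have k4 : ∀ a b c, D3 a b c → ∀ α β γ : ℂ,
      α • N.ρ a b (e c) + β • N.ρ b c (e a) + γ • N.ρ c a (e b) = 0 → α = 0 := by
    intro a b c d α β γ q
    have r := congrArg (N.ρ a b) q
    simp only [map_add, map_smul, map_zero, k1 a b c d] at r
    exact coef3 hA (b := c) (Submodule.add_mem _
      (Submodule.smul_mem _ β (k3 b c a d.perm.2.2.2.1)) (Submodule.smul_mem _ γ (k2 a b c d)))
      (by linear_combination (norm := module) -r)
  obtain ⟨a, b, d⟩ := D3.ex' 0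
  generalize (0 : Fin 3) = c at d
  have d1 := d.perm.2.2.2.1
  have d2 := d.perm.2.2.2.2
  obtain ⟨t, ht, i, hi⟩ := seven h6 ![e a, e b, e c, N.ρ a b (e c), N.ρ b c (e a),
    N.ρ c a (e b), N.ρ a b (e b)]
  rw [Fin.sum_univ_seven] at ht
  simp only [Matrix.cons_val] at ht
  have q := hA.uniq d (x := t 0) (y := t 1) (z := t 2) (u := t 6 • N.ρ a b (e b))
    (g := t 3 • N.ρ a b (e c) + t 4 • N.ρ b c (e a) + t 5 • N.ρ c a (e b))
    (Submodule.smul_mem _ _ (p_mem hA hZ d.1).1)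
    (Submodule.add_mem _ (Submodule.add_mem _ (Submodule.smul_mem _ _ (hz a b c d))
      (Submodule.smul_mem _ _ (hz b c a d1))) (Submodule.smul_mem _ _ (hz c a b d2)))
    (by linear_combination (norm := module) ht)
  obtain ⟨q0, q1, q2, q6, q⟩ := q
  have q3 := k4 a b c d _ _ _ q
  have q4 := k4 b c a d1 (t 4) (t 5) (t 3) (by linear_combination (norm := module) q)
  have q5 := k4 c a b d2 (t 5) (t 3) (t 4) (by linear_combination (norm := module) q)
  have q6' : t 6 = 0 := by simpa [(hA.2.1 b).1] using q6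
  apply hi
  fin_cases i <;> assumption

end H1

theorem sa0 : SA0 := by
  intro H _ _ _ N e σ h6 hA hZ
  by_cases h : ∃ a b c, D3 a b c ∧ N.ρ a b (e c) ∈ Se N.toWS Finset.univ
  · obtain ⟨a, b, c, d, k⟩ := h
    exact H1.case_eq h6 hA hZ fun a' b' c' d' => H1.unif hA d d' k
  · exact H1.case_ne h6 hA hZ fun a b c d k => h ⟨a, b, c, d, k⟩

end Pool.Agent.MP_3ce0a0_al.H79.Y
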